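import Mathlib
import Pool.Agent.H323.Rays.Defs
import Pool.Agent.H323.Rays.Final

/-!
# Cyclic monotone trajectories are never optimal for faulty search on rays

For every number `m ≥ 2` of rays and every detection probability `0 < p < 1`, the infimum of the
competitive ratio over all trajectories is strictly smaller than the infimum over the cyclic monotone
ones.  All definitions used in the statement are in `Pool.Agent.H323.Rays.Defs`.
-/

open scoped ENNReal

namespace Pool.Agent.Results.MP_d94893_lc.StrictGapAllRays

open Pool.Agent.H323.Rays

/-- For every `m ≥ 2` and every `p ∈ (0, 1)`: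
`inf_T C_p(T) < inf_{T cyclic monotone} C_p(T)` on `m` rays. -/
theorem result (m : ℕ) (hm : 2 ≤ m) (p : ℝ) (hp0 : 0 < p) (hp1 : p < 1) :
    (⨅ (T : Path) (_ : IsTrajectory m T), competitiveRatio m p T) <
      ⨅ (T : Path) (_ : IsTrajectory m T) (_ : IsCyclicMonotone m T), competitiveRatio m p T :=
  strict hm hp0 hp1

end Pool.Agent.Results.MP_d94893_lc.StrictGapAllRays
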